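import Pool.Agent.W851.BE.Stm

/-!
# Project BE: the disc count is reached by fixed points
-/

set_option autoImplicit false

open Polynomial Topology Filter

namespace Pool.Agent.W193.BE

open Pool.Agent.W95.BK Pool.Agent.W851.BE

universe u

/-- a point of a finite set lying in all discs of a chain -/
theorem common {K : Type u} [NontriviallyNormedField K] [IsUltrametricDist K] (C0 : Finset K)
    (DD : Set (K × ℝ)) (hne : DD.Nonempty)
    (hch : ∀ p ∈ DD, ∀ q ∈ DD, ‖p.1 - q.1‖ < max p.2 q.2)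
    (hpt : ∀ p ∈ DD, ∃ w ∈ C0, ‖w - p.1‖ < p.2) :
    ∃ a' ∈ C0, ∀ p ∈ DD, ‖a' - p.1‖ < p.2 := by
  classical
  by_contra hcon
  push Not at hcon
  have h1 : ∀ c : K, ∃ p : K × ℝ, p ∈ DD ∧ (c ∈ C0 → p.2 ≤ ‖c - p.1‖) := by
    intro c
    by_cases hc : c ∈ C0
    · obtain ⟨p, hp, h⟩ := hcon c hc
      exact ⟨p, hp, fun _ => h⟩
    · obtain ⟨p, hp⟩ := hne
      exact ⟨p, hp, fun h => absurd h hc⟩
  choose p hp hcp using h1
  have hC : C0.Nonempty := by
    obtain ⟨q, hq⟩ := hne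
    obtain ⟨w, hw, -⟩ := hpt q hq
    exact ⟨w, hw⟩
  obtain ⟨c, hc, hmin⟩ := Finset.exists_min_image C0 (fun c => (p c).2) hC
  obtain ⟨w, hw, hwp⟩ := hpt (p c) (hp c)
  have h2 := hmin w hw
  have h3 := hch (p c) (hp c) (p w) (hp w)
  rw [max_eq_right h2] at h3
  have h4 : ‖w - (p w).1‖ < (p w).2 := by
    have e : w - (p w).1 = (w - (p c).1) + ((p c).1 - (p w).1) := by ring
    rw [e]
    exact (IsUltrametricDist.norm_add_le_max _ _).trans_lt (max_lt (hwp.trans_le h2) h3)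
  exact absurd (hcp w hw) (not_le.2 h4)

theorem fix_ne {K : Type u} [NontriviallyNormedField K] (f : RMap K) (hd : 2 ≤ f.d) :
    f.P - X * f.Q ≠ 0 ∧ f.Q ≠ 0 := by
  have hQ : f.Q ≠ 0 := by
    intro h
    have h1 := f.cop
    rw [h] at h1
    have h2 : IsUnit f.P := isCoprime_zero_right.1 h1
    have h3 := natDegree_eq_zero_of_isUnit h2
    have h4 := f.deg_eq
    rw [h, h3, natDegree_zero] at h4
    simp at h4
    omega
  refine ⟨?_, hQ⟩
  intro h
  have hP : f.P = X * f.Q := sub_eq_zero.1 h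
  have h1 := f.cop
  rw [hP] at h1
  have h2 : IsUnit f.Q := by
    have h3 : IsCoprime f.Q f.Q := h1.of_mul_left_right
    exact isCoprime_self.1 h3
  have h3 := natDegree_eq_zero_of_isUnit h2
  have h4 := f.deg_eq
  rw [hP, natDegree_mul X_ne_zero hQ, natDegree_X, h3] at h4
  simp at h4
  omega

/-- the statement for one disc -/
def Good {K : Type u} [NontriviallyNormedField K] [IsUltrametricDist K] [IsAlgClosed K]
    (f : RMap K) (a : K) (r : ℝ) : Prop :=
  ∃ (I : Finset (BA K)) (Cl : Finset K) (S : Finset (BA K)),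
    (∀ x ∈ I, XF f x ∧ lam x a < r) ∧ (∀ c ∈ Cl, CR f c ∧ ‖c - a‖ < r) ∧
    (∀ x ∈ S, PB f x ∧ lam x a < r) ∧
    Nw f a r ≤ ∑ x ∈ I, localDeg f (x : P1B K) + Cl.card + S.card

theorem main : S_NWI.{u} → S_CENTER.{u} → S_C.{u} → S_ISO.{u} → S_GLAM.{u} → S_LDEX.{u} →
    S_ZT.{u} → S_N0.{u} → S_CR2.{u} → S_EQ.{u} → S_IRC.{u} → S_NT3.{u} → S_EXH.{u} := by
  classical
  intro hNWI hCEN hC hISO hGL hLD hZT hN0 hCR2 hEQ hIRC hNT3
  intro K _ _ _ f a r hd hr
  suffices H : ∀ (k : ℕ) (a : K) (r : ℝ), 0 < r → Nw f a r = k → Good f a r from H _ a r hr rfl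
  clear hr a r
  intro k
  induction k using Nat.strong_induction_on with
  | _ k ih =>
  intro a r hr hk
  rcases Nat.eq_zero_or_pos k with hk0 | hkpos
  · refine ⟨∅, ∅, ∅, ?_, ?_, ?_, ?_⟩ <;> simp [hk, hk0]
  have mono : ∀ (z : K) (t t' : ℝ), 0 < t → t ≤ t' → Nw f z t ≤ Nw f z t' := fun z t t' ht htt' =>
    (hNWI K f z t ht).2.2.2.1 t' htt'
  have cen : ∀ (z z' : K) (t : ℝ), ‖z - z'‖ < t → Nw f z t = Nw f z' t := fun z z' t h =>
    hCEN K f z z' t h
  have left : ∀ (z : K) (t : ℝ), 0 < t → ∃ s, 0 < s ∧ s < t ∧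
      ∀ t', s < t' → t' < t → Nw f z t' = Nw f z t := fun z t ht =>
    (hNWI K f z t ht).2.2.2.2.1
  obtain ⟨hfx, hQ0⟩ := fix_ne f hd
  set C0 : Finset K := (f.P - X * f.Q).roots.toFinset ∪ f.Q.roots.toFinset with hC0
  set DD : Set (K × ℝ) := {p | ‖p.1 - a‖ < r ∧ 0 < p.2 ∧ p.2 ≤ r ∧ Nw f p.1 p.2 = k} with hDD
  have hDne : (a, r) ∈ DD := ⟨by simpa using hr, hr, le_rfl, hk⟩
  have hchain : ∀ p ∈ DD, ∀ q ∈ DD, ‖p.1 - q.1‖ < max p.2 q.2 := by
    rintro p ⟨hp1, hp2, hp3, hp4⟩ q ⟨hq1, hq2, hq3, hq4⟩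
    by_contra hcon
    push Not at hcon
    have hpq : p ≠ q := by
      rintro rfl
      rw [sub_self, norm_zero, max_self] at hcon
      linarith
    have h1 := hC K f ∅ {p, q} a r (by simp) ?_ ?_ (by simp) (by simp) ?_ hr
    · rw [Finset.sum_empty, zero_add, Finset.sum_pair hpq, hp4, hq4, hk] at h1
      omega
    · intro x hx
      rcases Finset.mem_insert.1 hx with rfl | hx
      · exact hp2
      · rw [Finset.mem_singleton.1 hx]; exact hq2
    · intro x hx y hy hxy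
      have hx' : x = p ∨ x = q := by simpa using hx
      have hy' : y = p ∨ y = q := by simpa using hy
      rcases hx' with h1 | h1 <;> rcases hy' with h2 | h2
      · exact absurd (h1.trans h2.symm) hxy
      · rw [h1, h2]; exact hcon
      · rw [h1, h2, norm_sub_rev, max_comm]; exact hcon
      · exact absurd (h1.trans h2.symm) hxy
    · intro x hx
      rcases Finset.mem_insert.1 hx with rfl | hx
      · exact ⟨hp1, hp3⟩
      · rw [Finset.mem_singleton.1 hx]; exact ⟨hq1, hq3⟩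
  obtain ⟨a', -, ha'⟩ := common C0 DD ⟨_, hDne⟩ hchain (by
    rintro p ⟨hp1, hp2, hp3, hp4⟩
    obtain ⟨w, hw, h⟩ := hN0 K f p.1 p.2 hp2 (by omega)
    refine ⟨w, ?_, hw⟩
    rw [hC0, Finset.mem_union, Multiset.mem_toFinset, Multiset.mem_toFinset, mem_roots hfx,
      mem_roots hQ0]
    exact h)
  have ha'a : ‖a' - a‖ < r := ha' _ hDne
  -- radii
  set TT : Set ℝ := {t | 0 < t ∧ t ≤ r ∧ Nw f a' t = k} with hTT
  have hTr : r ∈ TT := ⟨hr, le_rfl, by rw [cen a' a r ha'a, hk]⟩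
  have hTDD : ∀ p ∈ DD, p.2 ∈ TT := by
    intro p hp
    have h1 := ha' p hp
    obtain ⟨-, hp2, hp3, hp4⟩ := hp
    exact ⟨hp2, hp3, by rw [cen a' p.1 p.2 h1, hp4]⟩
  have hbdd : BddBelow TT := ⟨0, fun t ht => ht.1.le⟩
  set t0 := sInf TT with ht0
  have ht0le : ∀ t ∈ TT, t0 ≤ t := fun t ht => csInf_le hbdd ht
  have ht0nn : 0 ≤ t0 := le_csInf ⟨r, hTr⟩ fun t ht => ht.1.le
  have hup : ∀ t, t0 < t → t ≤ r → Nw f a' t = k := by
    intro t ht htr
    obtain ⟨t1, ht1, ht1t⟩ := exists_lt_of_csInf_lt ⟨r, hTr⟩ ht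
    have h1 := mono a' t1 t ht1.1 ht1t.le
    have h2 := mono a' t r (ht0nn.trans_lt ht) htr
    rw [ht1.2.2] at h1
    rw [hTr.2.2] at h2
    omega
  have hupge : ∀ t, t0 < t → k ≤ Nw f a' t := by
    intro t ht
    rcases le_or_gt t r with h | h
    · rw [hup t ht h]
    · have := mono a' r t hr h.le
      rw [hTr.2.2] at this
      exact this
  rcases ht0nn.eq_or_lt with h0 | h0
  · -- classical repelling fixed point
    obtain ⟨h1, h2⟩ := hCR2 K f a' k hkpos (fun t ht => hupge t (by rw [← h0]; exact ht))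
    refine ⟨∅, {a'}, ∅, by simp, ?_, by simp, ?_⟩
    · intro c hc
      rw [Finset.mem_singleton.1 hc]
      exact ⟨h1, ha'a⟩
    · rw [hk, h2]; simp
  -- strict inequality
  have ht0r : t0 < r := by
    rcases (ht0le r hTr).eq_or_lt with h | h
    · exfalso
      obtain ⟨s, hs0, hsr, hs⟩ := left a' r hr
      have h1 : (s + r) / 2 ∈ TT := ⟨by linarith, by linarith, by
        rw [hs _ (by linarith) (by linarith), hTr.2.2]⟩
      have := ht0le _ h1
      linarith
    · exact h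
  have hlt : ∀ z : K, ‖z - a'‖ ≤ t0 → Nw f z t0 < k := by
    intro z hz
    by_contra hcon
    push Not at hcon
    have hza : ‖z - a‖ < r := by
      have e : z - a = (z - a') + (a' - a) := by ring
      rw [e]
      exact (IsUltrametricDist.norm_add_le_max _ _).trans_lt (max_lt (hz.trans_lt ht0r) ha'a)
    have h1 : Nw f z t0 = k := by
      have h2 := mono z t0 r h0 ht0r.le
      rw [cen z a r hza, hk] at h2
      omega
    obtain ⟨s, hs0, hst, hs⟩ := left z t0 h0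
    have h2 : (z, (s + t0) / 2) ∈ DD := ⟨hza, by simp only; linarith, by simp only; linarith, by
      simp only
      rw [hs _ (by linarith) (by linarith), h1]⟩
    have h3 := ht0le _ (hTDD _ h2)
    simp only at h3
    linarith
  have hval : ∃ c : K, ‖c‖ = t0 := by
    by_contra hcon
    obtain ⟨r', hr', h1⟩ := hNT3 K f a' t0 h0 hcon
    have h2 := h1 (min ((t0 + r') / 2) r) (lt_min (by linarith) ht0r)
      ((min_le_left _ _).trans_lt (by linarith))
    rw [hup _ (lt_min (by linarith) ht0r) (min_le_right _ _)] at h2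
    have h3 := hlt a' (by simpa using h0.le)
    omega
  obtain ⟨c, hc⟩ := hval
  obtain ⟨Z, ⟨hZ1, hZ2⟩, hfix, hnfix⟩ := hEQ K f a' c t0 h0 hc
  have hkI : k ≤ Iw f a' t0 := by
    obtain ⟨r', hr', h1⟩ := hIRC K f a' t0 h0
    have h2 : t0 < min ((t0 + r') / 2) r := lt_min (by linarith) ht0r
    have h3 := h1 (min ((t0 + r') / 2) r) h2 ((min_le_left _ _).trans_lt (by linarith))
    have h4 := (hNWI K f a' (min ((t0 + r') / 2) r) (h0.trans h2)).1.2.2.2.1
    rw [hup _ h2 (min_le_right _ _)] at h4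
    exact h4.trans h3
  -- the induction hypothesis
  have hIH : ∀ z : K, ∃ (I : Finset (BA K)) (Cl : Finset K) (S : Finset (BA K)), z ∈ Z →
      ((∀ x ∈ I, XF f x ∧ lam x z < t0) ∧ (∀ c ∈ Cl, CR f c ∧ ‖c - z‖ < t0) ∧
      (∀ x ∈ S, PB f x ∧ lam x z < t0) ∧
      Nw f z t0 ≤ ∑ x ∈ I, localDeg f (x : P1B K) + Cl.card + S.card) := by
    intro z
    by_cases hz : z ∈ Z
    · obtain ⟨I, Cl, S, h⟩ := ih _ (hlt z (hZ1 z hz)) z t0 h0 rfl
      exact ⟨I, Cl, S, fun _ => h⟩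
    · exact ⟨∅, ∅, ∅, fun h => absurd h hz⟩
  choose I Cl S hIH using hIH
  have iso1 : ∀ (x : BA K) (z z' : K), lam x z < t0 → lam x z' < t0 → ‖z - z'‖ < t0 :=
    fun x z z' h1 h2 => ((hISO K x z z').2.1).trans_lt (max_lt h1 h2)
  have hdI : ∀ z ∈ Z, ∀ z' ∈ Z, z ≠ z' → Disjoint (I z) (I z') := by
    intro z hz z' hz' hne
    rw [Finset.disjoint_left]
    intro x hx hx'
    have h1 := iso1 x z z' ((hIH z hz).1 x hx).2 ((hIH z' hz').1 x hx').2
    exact absurd (hZ2 z hz z' hz' hne) (not_le.2 h1)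
  have hdS : ∀ z ∈ Z, ∀ z' ∈ Z, z ≠ z' → Disjoint (S z) (S z') := by
    intro z hz z' hz' hne
    rw [Finset.disjoint_left]
    intro x hx hx'
    have h1 := iso1 x z z' ((hIH z hz).2.2.1 x hx).2 ((hIH z' hz').2.2.1 x hx').2
    exact absurd (hZ2 z hz z' hz' hne) (not_le.2 h1)
  have hdC : ∀ z ∈ Z, ∀ z' ∈ Z, z ≠ z' → Disjoint (Cl z) (Cl z') := by
    intro z hz z' hz' hne
    rw [Finset.disjoint_left]
    intro x hx hx'
    have h1 := ((hIH z hz).2.1 x hx).2
    have h2 := ((hIH z' hz').2.1 x hx').2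
    have h3 : ‖z - z'‖ < t0 := by
      have e : z - z' = (x - z') + (z - x) := by ring
      rw [e]
      rw [norm_sub_rev] at h1
      exact (IsUltrametricDist.norm_add_le_max _ _).trans_lt (max_lt h2 h1)
    exact absurd (hZ2 z hz z' hz' hne) (not_le.2 h3)
  -- location
  have hza : ∀ z ∈ Z, ‖z - a‖ < r := by
    intro z hz
    have e : z - a = (z - a') + (a' - a) := by ring
    rw [e]
    exact (IsUltrametricDist.norm_add_le_max _ _).trans_lt (max_lt ((hZ1 z hz).trans_lt ht0r) ha'a)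
  have loc : ∀ z ∈ Z, ∀ x : BA K, lam x z < t0 → lam x a < r := by
    intro z hz x hx
    refine ((hISO K x a z).1).trans_lt (max_lt (hx.trans ht0r) ?_)
    rw [norm_sub_rev]
    exact hza z hz
  have locC : ∀ z ∈ Z, ∀ x : K, ‖x - z‖ < t0 → ‖x - a‖ < r := by
    intro z hz x hx
    have e : x - a = (x - z) + (z - a) := by ring
    rw [e]
    exact (IsUltrametricDist.norm_add_le_max _ _).trans_lt (max_lt (hx.trans ht0r) (hza z hz))
  have hI' : ∀ x ∈ Z.biUnion I, XF f x ∧ lam x a < r := by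
    intro x hx
    obtain ⟨z, hz, hxz⟩ := Finset.mem_biUnion.1 hx
    obtain ⟨h1, h2⟩ := (hIH z hz).1 x hxz
    exact ⟨h1, loc z hz x h2⟩
  have hS' : ∀ x ∈ Z.biUnion S, PB f x ∧ lam x a < r := by
    intro x hx
    obtain ⟨z, hz, hxz⟩ := Finset.mem_biUnion.1 hx
    obtain ⟨h1, h2⟩ := (hIH z hz).2.2.1 x hxz
    exact ⟨h1, loc z hz x h2⟩
  have hC' : ∀ x ∈ Z.biUnion Cl, CR f x ∧ ‖x - a‖ < r := by
    intro x hx
    obtain ⟨z, hz, hxz⟩ := Finset.mem_biUnion.1 hx
    obtain ⟨h1, h2⟩ := (hIH z hz).2.1 x hxz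
    exact ⟨h1, locC z hz x h2⟩
  have hsum : ∑ z ∈ Z, Nw f z t0 ≤ ∑ x ∈ Z.biUnion I, localDeg f (x : P1B K) +
      (Z.biUnion Cl).card + (Z.biUnion S).card := by
    rw [Finset.sum_biUnion (fun z hz z' hz' h => hdI z hz z' hz' h),
      Finset.card_biUnion (fun z hz z' hz' h => hdC z hz z' hz' h),
      Finset.card_biUnion (fun z hz z' hz' h => hdS z hz z' hz' h), ← Finset.sum_add_distrib,
      ← Finset.sum_add_distrib]
    exact Finset.sum_le_sum fun z hz => (hIH z hz).2.2.2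
  -- the point
  have hzt := zt_pos a' h0
  have hlz : ∀ z ∈ Z, lam (gauss a' t0 h0) z = t0 := by
    intro z hz
    rw [(hGL K a' z).2 t0 h0]
    apply max_eq_right
    rw [norm_sub_rev]
    exact hZ1 z hz
  have hla : lam (gauss a' t0 h0) a < r := by
    rw [(hGL K a' a).2 t0 h0]
    exact max_lt ha'a ht0r
  have hnI : gauss a' t0 h0 ∉ Z.biUnion I := by
    intro h
    obtain ⟨z, hz, hxz⟩ := Finset.mem_biUnion.1 h
    have h1 := ((hIH z hz).1 _ hxz).2
    rw [hlz z hz] at h1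
    exact lt_irrefl _ h1
  have hnS : gauss a' t0 h0 ∉ Z.biUnion S := by
    intro h
    obtain ⟨z, hz, hxz⟩ := Finset.mem_biUnion.1 h
    have h1 := ((hIH z hz).2.2.1 _ hxz).2
    rw [hlz z hz] at h1
    exact lt_irrefl _ h1
  by_cases hf : f.act (zt a' t0) = zt a' t0
  · have h1 := hfix hf
    obtain ⟨m, hm1, -, hm2⟩ := hLD K f (gauss a' t0 h0) ((hZT K).2.2.1 a' t0 h0)
    have hm3 : localDeg f (zt a' t0) = m := by rw [hzt]; exact hm2
    rw [hm3] at h1
    rcases Nat.lt_or_ge 1 m with hm | hm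
    · -- repelling
      refine ⟨insert (gauss a' t0 h0) (Z.biUnion I), Z.biUnion Cl, Z.biUnion S, ?_, hC', hS', ?_⟩
      · intro x hx
        rcases Finset.mem_insert.1 hx with rfl | hx
        · refine ⟨⟨⟨a', t0, h0, ⟨c, hc⟩, rfl⟩, ?_, ?_⟩, hla⟩
          · rw [← hzt]; exact hf
          · rw [hm2]; exact hm
        · exact hI' x hx
      · rw [Finset.sum_insert hnI, hm2, hk]
        omega
    · have hm4 : m = 1 := by omega
      subst hm4
      by_cases hle : k ≤ ∑ z ∈ Z, Nw f z t0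
      · exact ⟨Z.biUnion I, Z.biUnion Cl, Z.biUnion S, hI', hC', hS', by rw [hk]; omega⟩
      · -- type B
        have hIeq : Iw f a' t0 = k := by omega
        refine ⟨Z.biUnion I, Z.biUnion Cl, insert (gauss a' t0 h0) (Z.biUnion S), hI', hC', ?_, ?_⟩
        · intro x hx
          rcases Finset.mem_insert.1 hx with rfl | hx
          · refine ⟨⟨a', t0, h0, rfl, h0, ⟨c, hc⟩, hf, hm3, ?_⟩, hla⟩
            intro r' hr'
            rw [hIeq]
            exact hupge r' hr'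
          · exact hS' x hx
        · rw [Finset.card_insert_of_notMem hnS, hk]
          omega
  · have h1 := hnfix hf
    exact ⟨Z.biUnion I, Z.biUnion Cl, Z.biUnion S, hI', hC', hS', by rw [hk]; omega⟩

end Pool.Agent.W193.BE
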